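import Pool.Agent.Helper66.SB.GoalsB

/-!
# Project SB, packet CPT: limits of reducible polynomials
-/

set_option autoImplicit false
set_option maxHeartbeats 400000

open Module MvPolynomial

noncomputable section

namespace Pool.Agent.Helper48.SB

open Pool.Agent.Helper66.SB Helper18.Shgh

/-- coefficient vectors -/
abbrev E (k : ℕ) : Type := Fin (k + 1) × Fin (k + 1) → ℂ

/-- exponents -/
def ex {k : ℕ} (x : Fin (k + 1) × Fin (k + 1)) : Fin 2 →₀ ℕ :=
  Finsupp.single 0 (x.1 : ℕ) + Finsupp.single 1 (x.2 : ℕ)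

theorem ex_zero {k : ℕ} (x : Fin (k + 1) × Fin (k + 1)) : ex x 0 = x.1 := by simp [ex]
theorem ex_one {k : ℕ} (x : Fin (k + 1) × Fin (k + 1)) : ex x 1 = x.2 := by simp [ex]

theorem ex_inj {k : ℕ} : Function.Injective (ex : Fin (k + 1) × Fin (k + 1) → _) := by
  intro x y h
  have h0 : ex x 0 = ex y 0 := by rw [h]
  have h1 : ex x 1 = ex y 1 := by rw [h]
  rw [ex_zero, ex_zero] at h0
  rw [ex_one, ex_one] at h1
  exact Prod.ext (Fin.ext h0) (Fin.ext h1)

theorem deg2 (e : Fin 2 →₀ ℕ) : e.degree = e 0 + e 1 := by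
  rw [Finsupp.degree_eq_sum]
  simp

theorem ex_degree {k : ℕ} (x : Fin (k + 1) × Fin (k + 1)) : (ex x).degree = x.1 + x.2 := by
  rw [deg2, ex_zero, ex_one]

theorem ex_surj {k : ℕ} (e : Fin 2 →₀ ℕ) (he : e.degree ≤ k) : ∃ x : Fin (k + 1) × Fin (k + 1),
    ex x = e := by
  rw [deg2] at he
  refine ⟨(⟨e 0, by omega⟩, ⟨e 1, by omega⟩), ?_⟩
  ext i
  fin_cases i
  · exact ex_zero _
  · exact ex_one _

/-- the polynomial of a vector -/
def P {k : ℕ} (c : E k) : R2 := ∑ x, monomial (ex x) (c x)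

/-- the vector of a polynomial -/
def Q (k : ℕ) (G : R2) : E k := fun x => coeff (ex x) G

theorem coeff_P {k : ℕ} (c : E k) (e : Fin 2 →₀ ℕ) :
    coeff e (P c) = ∑ x, if ex x = e then c x else 0 := by
  unfold P
  rw [coeff_sum]
  refine Finset.sum_congr rfl (fun x _ => ?_)
  rw [coeff_monomial]

theorem QP {k : ℕ} (c : E k) : Q k (P c) = c := by
  funext x
  show coeff (ex x) (P c) = c x
  rw [coeff_P, Finset.sum_eq_single x]
  · simp
  · intro y _ hy
    rw [if_neg (fun h => hy (ex_inj h))]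
  · simp

theorem PQ {k : ℕ} (G : R2) (hG : G ∈ V (k : ℤ)) : P (Q k G) = G := by
  ext e
  by_cases he : coeff e G = 0
  · rw [coeff_P, he]
    refine Finset.sum_eq_zero (fun x _ => ?_)
    split_ifs with h
    · show coeff (ex x) G = 0
      rw [h, he]
    · rfl
  · have h1 := mem_V'.mp hG e he
    obtain ⟨x, hx⟩ := ex_surj (k := k) e (by exact_mod_cast h1)
    rw [coeff_P, Finset.sum_eq_single x]
    · rw [if_pos hx, ← hx]; rfl
    · intro y _ hy
      rw [if_neg (fun h => hy (ex_inj (h.trans hx.symm)))]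
    · simp

/-- vectors of degree at most `a` -/
def T (k a : ℕ) : Set (E k) := {c | ∀ x, a < (x.1 : ℕ) + x.2 → c x = 0}

theorem P_mem {k a : ℕ} {c : E k} (hc : c ∈ T k a) : P c ∈ V (a : ℤ) := by
  rw [mem_V']
  intro e he
  rw [coeff_P] at he
  by_contra hcon
  apply he
  refine Finset.sum_eq_zero (fun x _ => ?_)
  split_ifs with h
  · apply hc
    rw [← ex_degree, h]
    have : ¬ ((e.degree : ℤ) ≤ a) := hcon
    omega
  · rfl

theorem Q_mem {k a : ℕ} {G : R2} (hG : G ∈ V (a : ℤ)) : Q k G ∈ T k a := by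
  intro x hx
  by_contra hcon
  have h1 := mem_V'.mp hG (ex x) hcon
  rw [ex_degree] at h1
  omega

theorem T_closed (k a : ℕ) : IsClosed (T k a) := by
  have : T k a = ⋂ x : Fin (k + 1) × Fin (k + 1),
      {c : E k | a < (x.1 : ℕ) + x.2 → c x = 0} := by
    ext c; simp [T]
  rw [this]
  refine isClosed_iInter (fun x => ?_)
  by_cases h : a < (x.1 : ℕ) + x.2
  · simp only [h, forall_const]
    exact isClosed_eq (continuous_apply x) continuous_const
  · simp [h]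

/-- the product -/
def Ph (k : ℕ) (p : E k × E k) : E k := Q k (P p.1 * P p.2)

theorem Ph_apply (k : ℕ) (p : E k × E k) (z : Fin (k + 1) × Fin (k + 1)) :
    Ph k p z = ∑ x, ∑ y, if ex x + ex y = ex z then p.1 x * p.2 y else 0 := by
  show coeff (ex z) (P p.1 * P p.2) = _
  unfold P
  rw [Finset.sum_mul_sum, coeff_sum]
  refine Finset.sum_congr rfl (fun x _ => ?_)
  rw [coeff_sum]
  refine Finset.sum_congr rfl (fun y _ => ?_)
  rw [monomial_mul, coeff_monomial]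

theorem Ph_cont (k : ℕ) : Continuous (Ph k) := by
  rw [continuous_pi_iff]
  intro z
  have h : (fun p : E k × E k => Ph k p z) = fun p => ∑ x, ∑ y,
      if ex x + ex y = ex z then p.1 x * p.2 y else 0 := by
    funext p; exact Ph_apply k p z
  rw [h]
  refine continuous_finsetSum _ (fun x _ => continuous_finsetSum _ (fun y _ => ?_))
  split_ifs
  · fun_prop
  · exact continuous_const

theorem Ph_smul (k : ℕ) (c d : E k) (r : ℂ) : Ph k (c, r • d) = r • Ph k (c, d) := by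
  funext z
  rw [Pi.smul_apply, Ph_apply, Ph_apply, smul_eq_mul, Finset.mul_sum]
  refine Finset.sum_congr rfl (fun x _ => ?_)
  rw [Finset.mul_sum]
  refine Finset.sum_congr rfl (fun y _ => ?_)
  split_ifs
  · simp only [Pi.smul_apply, smul_eq_mul]; ring
  · simp

theorem V_mul {a b : ℕ} {A B : R2} (hA : A ∈ V (a : ℤ)) (hB : B ∈ V (b : ℤ)) :
    A * B ∈ V ((a + b : ℕ) : ℤ) := by
  rw [mem_V'] at *
  intro e he
  have h1 : e ∈ (A * B).support := mem_support_iff.mpr he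
  have h2 := support_mul A B h1
  obtain ⟨u, hu, v, hv, rfl⟩ := Finset.mem_add.mp h2
  have h3 := hA u (mem_support_iff.mp hu)
  have h4 := hB v (mem_support_iff.mp hv)
  rw [deg2] at h3 h4 ⊢
  simp only [Finsupp.add_apply]
  push_cast at *
  omega

theorem P_ne {k : ℕ} {c : E k} (hc : c ≠ 0) : P c ≠ 0 := by
  intro h
  apply hc
  rw [← QP c, h]
  funext x
  show coeff (ex x) (0 : R2) = 0
  rw [coeff_zero]

theorem Ph_ne {k a b : ℕ} (hab : a + b = k) {c d : E k} (hc : c ∈ T k a) (hd : d ∈ T k b)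
    (hc0 : c ≠ 0) (hd0 : d ≠ 0) : Ph k (c, d) ≠ 0 := by
  intro h
  have h1 : P c * P d ∈ V (k : ℤ) := by
    have h0 := V_mul (P_mem hc) (P_mem hd)
    rwa [show ((a + b : ℕ) : ℤ) = (k : ℤ) by rw [hab]] at h0
  have h2 : P (Ph k (c, d)) = P c * P d := PQ _ h1
  rw [h] at h2
  have h3 : P (0 : E k) = 0 := by
    unfold P; simp
  rw [h3] at h2
  exact mul_ne_zero (P_ne hc0) (P_ne hd0) h2.symm

theorem lower {k a b : ℕ} (hab : a + b = k) : ∃ s : ℝ, 0 < s ∧ ∀ c ∈ T k a, ∀ d ∈ T k b,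
    ‖c‖ = 1 → s * ‖d‖ ≤ ‖Ph k (c, d)‖ := by
  have hK : IsCompact ((T k a ∩ Metric.sphere 0 1) ×ˢ (T k b ∩ Metric.sphere 0 1)) :=
    ((isCompact_sphere _ _).inter_left (T_closed k a)).prod
      ((isCompact_sphere _ _).inter_left (T_closed k b))
  have h1 : ∃ s : ℝ, 0 < s ∧ ∀ c ∈ T k a, ∀ d ∈ T k b, ‖c‖ = 1 → ‖d‖ = 1 →
      s ≤ ‖Ph k (c, d)‖ := by
    rcases Set.eq_empty_or_nonempty
      ((T k a ∩ Metric.sphere 0 1) ×ˢ (T k b ∩ Metric.sphere 0 1) : Set (E k × E k)) with h | h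
    · refine ⟨1, one_pos, fun c hc d hd hc1 hd1 => ?_⟩
      exfalso
      have : (c, d) ∈ ((T k a ∩ Metric.sphere 0 1) ×ˢ (T k b ∩ Metric.sphere 0 1) :
          Set (E k × E k)) := ⟨⟨hc, by simpa using hc1⟩, ⟨hd, by simpa using hd1⟩⟩
      rw [h] at this
      exact this
    · obtain ⟨p, hp, hmin⟩ := hK.exists_isMinOn h (Ph_cont k).norm.continuousOn
      refine ⟨‖Ph k p‖, ?_, fun c hc d hd hc1 hd1 => ?_⟩
      · obtain ⟨⟨hp1, hp2⟩, hp3, hp4⟩ := hp
        rw [mem_sphere_zero_iff_norm] at hp2 hp4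
        have : Ph k (p.1, p.2) ≠ 0 := Ph_ne hab hp1 hp3
          (by intro h0; rw [h0, norm_zero] at hp2; exact zero_ne_one hp2)
          (by intro h0; rw [h0, norm_zero] at hp4; exact zero_ne_one hp4)
        exact norm_pos_iff.mpr this
      · exact hmin (show (c, d) ∈ _ from ⟨⟨hc, by simpa using hc1⟩, ⟨hd, by simpa using hd1⟩⟩)
  obtain ⟨s, hs, h2⟩ := h1
  refine ⟨s, hs, fun c hc d hd hc1 => ?_⟩
  by_cases hd0 : d = 0
  · rw [hd0, norm_zero, mul_zero]; exact norm_nonneg _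
  · have hn : ‖d‖ ≠ 0 := norm_ne_zero_iff.mpr hd0
    have hd' : ((‖d‖ : ℂ)⁻¹ • d) ∈ T k b := by
      intro x hx
      rw [Pi.smul_apply, hd x hx, smul_zero]
    have hd1 : ‖((‖d‖ : ℂ)⁻¹ • d)‖ = 1 := by
      rw [norm_smul, norm_inv, Complex.norm_real, norm_norm, inv_mul_cancel₀ hn]
    have h3 := h2 c hc _ hd' hc1 hd1
    rw [Ph_smul, norm_smul, norm_inv, Complex.norm_real, norm_norm] at h3
    rw [inv_mul_eq_div, le_div_iff₀ (by positivity)] at h3
    exact h3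

theorem closedness {k a b : ℕ} (hab : a + b = k) (F : R2) (Fn : ℕ → R2) (hF : F ∈ V (k : ℤ))
    (hlim : ∀ e : Fin 2 →₀ ℕ, Filter.Tendsto (fun n => coeff e (Fn n)) Filter.atTop
      (nhds (coeff e F)))
    (hfr : ∃ᶠ n in Filter.atTop, ∃ A B : R2, A ∈ V (a : ℤ) ∧ B ∈ V (b : ℤ) ∧ A ≠ 0 ∧
      Fn n = A * B) :
    ∃ A B : R2, A ∈ V (a : ℤ) ∧ B ∈ V (b : ℤ) ∧ F = A * B := by
  obtain ⟨s, hs, hlow⟩ := lower hab
  have hQ : Filter.Tendsto (fun n => Q k (Fn n)) Filter.atTop (nhds (Q k F)) := by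
    rw [tendsto_pi_nhds]
    intro x
    exact hlim (ex x)
  set M : ℝ := ‖Q k F‖ + 1 with hM
  have hbd : ∀ᶠ n in Filter.atTop, ‖Q k (Fn n)‖ ≤ M := by
    have h1 : Filter.Tendsto (fun n => ‖Q k (Fn n)‖) Filter.atTop (nhds ‖Q k F‖) := hQ.norm
    exact (h1.eventually (gt_mem_nhds (show ‖Q k F‖ < M by rw [hM]; linarith))).mono
      (fun n hn => le_of_lt hn)
  have hK : IsCompact (Ph k '' ((T k a ∩ Metric.sphere 0 1) ×ˢ
      (T k b ∩ Metric.closedBall 0 (M / s)))) :=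
    (((isCompact_sphere _ _).inter_left (T_closed k a)).prod
      ((isCompact_closedBall _ _).inter_left (T_closed k b))).image (Ph_cont k)
  have hfr2 : ∃ᶠ n in Filter.atTop, Q k (Fn n) ∈ (Ph k '' ((T k a ∩ Metric.sphere 0 1) ×ˢ
      (T k b ∩ Metric.closedBall 0 (M / s)))) := by
    refine (hfr.and_eventually hbd).mono ?_
    rintro n ⟨⟨A, B, hA, hB, hA0, hAB⟩, hn⟩
    have hak : a ≤ k := by omega
    have hbk : b ≤ k := by omega
    have hAk : A ∈ V (k : ℤ) := by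
      rw [mem_V'] at hA ⊢
      intro e he
      exact (hA e he).trans (by exact_mod_cast hak)
    have hBk : B ∈ V (k : ℤ) := by
      rw [mem_V'] at hB ⊢
      intro e he
      exact (hB e he).trans (by exact_mod_cast hbk)
    set c := Q k A with hc
    have hcT : c ∈ T k a := Q_mem hA
    have hc0 : c ≠ 0 := by
      intro h0
      apply hA0
      rw [← PQ A hAk, ← hc, h0]
      unfold P; simp
    have hn0 : ‖c‖ ≠ 0 := norm_ne_zero_iff.mpr hc0
    have hn0' : (‖c‖ : ℂ) ≠ 0 := by exact_mod_cast hn0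
    have hr : (‖c‖ : ℂ)⁻¹ • c ∈ T k a := by
      intro x hx
      rw [Pi.smul_apply, hcT x hx, smul_zero]
    have hr1 : ‖(‖c‖ : ℂ)⁻¹ • c‖ = 1 := by
      rw [norm_smul, norm_inv, Complex.norm_real, norm_norm, inv_mul_cancel₀ hn0]
    have hd : (‖c‖ : ℂ) • Q k B ∈ T k b := by
      intro x hx
      rw [Pi.smul_apply, Q_mem hB x hx, smul_zero]
    have hPs : ∀ (r : ℂ) (c : E k), P (r • c) = C r * P c := by
      intro r c
      unfold P
      rw [Finset.mul_sum]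
      refine Finset.sum_congr rfl (fun x _ => ?_)
      rw [C_mul_monomial]; rfl
    have hval : Ph k ((‖c‖ : ℂ)⁻¹ • c, (‖c‖ : ℂ) • Q k B) = Q k (Fn n) := by
      unfold Ph
      simp only
      rw [hPs, hPs, hc, PQ A hAk, PQ B hBk, hAB, ← hc]
      congr 1
      have : (C ((‖c‖ : ℂ)⁻¹) : R2) * C (‖c‖ : ℂ) = 1 := by
        rw [← C_mul, inv_mul_cancel₀ hn0', C_1]
      calc C ((‖c‖ : ℂ)⁻¹) * A * (C (‖c‖ : ℂ) * B)
          = (C ((‖c‖ : ℂ)⁻¹) * C (‖c‖ : ℂ)) * (A * B) := by ring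
        _ = A * B := by rw [this, one_mul]
    refine ⟨((‖c‖ : ℂ)⁻¹ • c, (‖c‖ : ℂ) • Q k B), ⟨⟨hr, by simpa using hr1⟩, hd, ?_⟩, hval⟩
    rw [mem_closedBall_zero_iff, le_div_iff₀ hs, mul_comm]
    refine (hlow _ hr _ hd hr1).trans ?_
    rw [hval]
    exact hn
  have hmem := hK.isClosed.mem_of_frequently_of_tendsto hfr2 hQ
  obtain ⟨⟨c, d⟩, ⟨⟨hc, _⟩, hd, _⟩, hcd⟩ := hmem
  refine ⟨P c, P d, P_mem hc, P_mem hd, ?_⟩
  have h1 : P c * P d ∈ V (k : ℤ) := by
    have h0 := V_mul (P_mem hc) (P_mem hd)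
    rwa [show ((a + b : ℕ) : ℤ) = (k : ℤ) by rw [hab]] at h0
  rw [← PQ F hF, ← hcd]
  exact PQ _ h1

theorem td_le {n : ℕ} {G : R2} (hG : G ∈ V (n : ℤ)) : G.totalDegree ≤ n := by
  rcases mem_V.mp hG with h | h
  · rw [h]; simp
  · exact_mod_cast h

theorem mem_td (G : R2) : G ∈ V (G.totalDegree : ℤ) := mem_V.mpr (Or.inr le_rfl)

theorem td_eq {k : ℕ} {G : R2} (hG : G ∈ V (k : ℤ)) (h : coeff (Finsupp.single 1 k) G ≠ 0) :
    G.totalDegree = k := by
  refine le_antisymm (td_le hG) ?_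
  have h1 := le_totalDegree (mem_support_iff.mpr h)
  simpa using h1

theorem unit_of_td {G : R2} (h0 : G ≠ 0) (h : G.totalDegree = 0) : IsUnit G := by
  rw [totalDegree_eq_zero_iff_eq_C] at h
  rw [h] at h0 ⊢
  have : coeff 0 G ≠ 0 := by
    intro h1; apply h0; rw [h1, C_0]
  exact (isUnit_iff_ne_zero.mpr this).map C

theorem td_unit {G : R2} (h : IsUnit G) : G.totalDegree = 0 := by
  obtain ⟨c, _, rfl⟩ := MvPolynomial.isUnit_iff_eq_C_of_isReduced.mp h
  exact totalDegree_C c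

theorem gCPT : G_CPT := by
  intro k F Fn hk hirr hF0 hF hFn hlim
  have hlead : ∀ᶠ n in Filter.atTop, coeff (Finsupp.single 1 k) (Fn n) ≠ 0 :=
    (hlim _).eventually_ne hF0
  have hcases : ∀ a ∈ Finset.Ico 1 k, ∀ᶠ n in Filter.atTop, ¬ ∃ A B : R2,
      A ∈ V (a : ℤ) ∧ B ∈ V ((k - a : ℕ) : ℤ) ∧ A ≠ 0 ∧ Fn n = A * B := by
    intro a ha
    rw [Finset.mem_Ico] at ha
    by_contra hcon
    have hfr : ∃ᶠ n in Filter.atTop, ∃ A B : R2,
      A ∈ V (a : ℤ) ∧ B ∈ V ((k - a : ℕ) : ℤ) ∧ A ≠ 0 ∧ Fn n = A * B := hcon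
    obtain ⟨A, B, hA, hB, hAB⟩ := closedness (a := a) (b := k - a) (by omega) F Fn hF hlim hfr
    have hFne : F ≠ 0 := hirr.ne_zero
    have hAne : A ≠ 0 := by intro h; apply hFne; rw [hAB, h, zero_mul]
    have hBne : B ≠ 0 := by intro h; apply hFne; rw [hAB, h, mul_zero]
    have htd : A.totalDegree + B.totalDegree = k := by
      rw [← totalDegree_mul_of_isDomain hAne hBne, ← hAB]
      exact td_eq hF hF0
    have h1 := td_le hA
    have h2 := td_le hB
    rcases hirr.isUnit_or_isUnit hAB with h | h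
    · have := td_unit h; omega
    · have := td_unit h; omega
  have hall : ∀ᶠ n in Filter.atTop, ∀ a ∈ Finset.Ico 1 k, ¬ ∃ A B : R2,
      A ∈ V (a : ℤ) ∧ B ∈ V ((k - a : ℕ) : ℤ) ∧ A ≠ 0 ∧ Fn n = A * B :=
    (Finset.eventually_all _).mpr hcases
  filter_upwards [hlead, hall] with n h1 h2
  have htd : (Fn n).totalDegree = k := td_eq (hFn n) h1
  have hne : Fn n ≠ 0 := by intro h; rw [h, coeff_zero] at h1; exact h1 rfl
  refine ⟨fun hu => ?_, fun A B hAB => ?_⟩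
  · have := td_unit hu; omega
  · by_contra hcon
    push Not at hcon
    obtain ⟨hA, hB⟩ := hcon
    have hAne : A ≠ 0 := by intro h; apply hne; rw [hAB, h, zero_mul]
    have hBne : B ≠ 0 := by intro h; apply hne; rw [hAB, h, mul_zero]
    have hsum : A.totalDegree + B.totalDegree = k := by
      rw [← totalDegree_mul_of_isDomain hAne hBne, ← hAB, htd]
    have ha : A.totalDegree ≠ 0 := fun h => hA (unit_of_td hAne h)
    have hb : B.totalDegree ≠ 0 := fun h => hB (unit_of_td hBne h)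
    refine h2 A.totalDegree (Finset.mem_Ico.mpr ⟨by omega, by omega⟩)
      ⟨A, B, mem_td A, ?_, hAne, hAB⟩
    have : k - A.totalDegree = B.totalDegree := by omega
    rw [this]
    exact mem_td B

end Pool.Agent.Helper48.SB
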